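import Pool.Agent.WAP.StmtsM

/-!
# WAP, row NQT: small multiples which are units at `ϖq`
-/

namespace Pool.Agent.WAP.H44

open Pool.Agent.WAP Classical

theorem sm_one {F : Type} [Field F] [Algebra GaussianInt F] {d : F} (P : Pt d) : sm 1 P = P := by
  simp [sm, gsm]

theorem sm_zero {F : Type} [Field F] [Algebra GaussianInt F] {d : F} (P : Pt d) :
    sm 0 P = 0 := by
  simp [sm, gsm]

theorem sm_mul {F : Type} [Field F] [Algebra GaussianInt F] {d : F} (a b : GaussianInt)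
    (P : Pt d) : sm (a * b) P = sm a (sm b P) := mul_gsm _ a b P

theorem lam_dvd_two : lam ∣ 2 := ⟨⟨1, -1⟩, by decide⟩

/-- the claim: a common annihilator modulo a level, not divisible by `ϖq`. -/
theorem claim (kil : KilStmt) (lvb : LvbStmt) (zlv : ZlvStmt) (k2g : K2gStmt)
    (F : Type) [NormedField F] [Algebra GaussianInt F] (ϖ ϖq : GaussianInt) (hF : IsLoc F ϖ)
    (hq : Prime ϖq) (hq2 : ¬ ϖq ∣ 2) (has : ¬ Associated ϖ ϖq)
    (hn : ϖ ∣ 2 ∨ ϖ.norm ≤ ϖq.norm) (d : F) (hd0 : d ≠ 0) (hd : ‖d‖ = 1 ∨ ‖d‖ = qn F ϖ)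
    (P Q : Pt d) (ρ : ℝ) (hρ : 0 < ρ) :
    ∃ e : GaussianInt, ¬ ϖq ∣ e ∧ ∀ n : GaussianInt, e ∣ n → Lev ρ (sm n P) ∧ Lev ρ (sm n Q) := by
  by_cases h2 : ϖ ∣ 2
  · obtain ⟨N, hN⟩ := (lvb F ϖ hF d hd0).2 ρ hρ
    obtain ⟨j1, h1⟩ := k2g F ϖ hF h2 d hd0 P N
    obtain ⟨j2, h3⟩ := k2g F ϖ hF h2 d hd0 Q N
    have hst := (zlv F ϖ hF d hd0).2.1
    refine ⟨lam ^ (j1 + j2), ?_, ?_⟩
    · intro h
      exact hq2 ((hq.dvd_of_dvd_pow h).trans lam_dvd_two)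
    · rintro n ⟨m, rfl⟩
      constructor
      · have e1 : lam ^ (j1 + j2) * m = (lam ^ j2 * m) * lam ^ j1 := by
          rw [pow_add]; ring
        rw [e1, sm_mul]
        exact hst ρ _ _ (hN _ h1)
      · have e1 : lam ^ (j1 + j2) * m = (lam ^ j1 * m) * lam ^ j2 := by
          rw [pow_add]; ring
        rw [e1, sm_mul]
        exact hst ρ _ _ (hN _ h3)
  · have hle : ϖ.norm ≤ ϖq.norm := hn.resolve_left h2
    have hnm : nm ϖ ≤ nm ϖq := by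
      unfold nm
      have a1 := GaussianInt.norm_nonneg ϖ
      have a2 := GaussianInt.norm_nonneg ϖq
      omega
    obtain ⟨c1, hc1, g1⟩ := kil F ϖ hF h2 d hd ϖq hq hq2 has hnm P ρ hρ
    obtain ⟨c2, hc2, g2⟩ := kil F ϖ hF h2 d hd ϖq hq hq2 has hnm Q ρ hρ
    refine ⟨c1 * c2, ?_, ?_⟩
    · intro h
      rcases hq.dvd_or_dvd h with h | h
      · exact hc1 h
      · exact hc2 h
    · intro n hn'
      exact ⟨g1 n ((Dvd.intro c2 rfl).trans hn'), g2 n ((Dvd.intro_left c1 rfl).trans hn')⟩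

theorem nqt (gdf : GdfStmt) (fra : FraStmt) (kuc : KucStmt) (nrm : NrmStmt) (kil : KilStmt)
    (lvb : LvbStmt) (zlv : ZlvStmt) (k2g : K2gStmt) : NqtStmt := by
  intro F _ _ ϖ ϖq hF hq hq2 has hn z hz O hO hzO
  have hG : GoodF F := gdf F (Or.inl ⟨ϖ, hF⟩)
  have h2 : (2 : F) ≠ 0 := by
    have h3 := hG.1 (1 + 1) (by decide)
    rw [map_add, map_one, one_add_one_eq_two] at h3
    exact h3
  obtain ⟨d, P, Q, hd, rfl⟩ := nrm F ϖ hF z hz
  have hd0 : d ≠ 0 := by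
    rintro rfl
    have hu := hF.uni
    rcases hd with hd | hd
    · simp at hd
    · rw [norm_zero] at hd
      unfold qn at hd
      rw [← hd] at hu
      exact lt_irrefl _ hu
  obtain ⟨N1, hN1⟩ := kuc F hG d hd0 P Q hz O hO hzO
  obtain ⟨ρ, hρ, hlev⟩ := (lvb F ϖ hF d hd0).1 N1
  obtain ⟨e, he, hE⟩ := claim kil lvb zlv k2g F ϖ ϖq hF hq hq2 has hn d hd0 hd P Q ρ hρ
  refine ⟨e, he, ?_⟩
  intro n hen
  obtain ⟨l1, l2⟩ := hE n hen
  have b0 : Big N1 (0 : Pt d) := Or.inl rfl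
  constructor
  · have k1 := hN1 (sm n Q) 0 (hlev _ l2) b0
    have f1 := fra F h2 d P Q 1 n 0 1 hd0 hz
    have e1 : actf 1 n 0 1 (kum d P Q) = kum d (P + sm n Q) (Q + 0) := by
      rw [f1, sm_one, sm_one, sm_zero, zero_add, add_zero]
    refine ⟨kum d (P + sm n Q) (Q + 0), k1.1, hz, k1.2, ?_, e1.symm⟩
    ring
  · have k1 := hN1 0 (sm n P) b0 (hlev _ l1)
    have f1 := fra F h2 d P Q 1 0 n 1 hd0 hz
    have e1 : actf 1 0 n 1 (kum d P Q) = kum d (P + 0) (Q + sm n P) := by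
      rw [f1, sm_one, sm_one, sm_zero, add_comm (sm n P) Q]
    refine ⟨kum d (P + 0) (Q + sm n P), k1.1, hz, k1.2, ?_, e1.symm⟩
    ring

end Pool.Agent.WAP.H44
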